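import Mathlib

/-!
# A finite Ramsey statement for increasing triples, by ultrafilter limits

`ramsey_four`: for any family of colourings (one for each size `n`) of the increasing triples of
natural numbers with finitely many colours, some colouring in the family has an increasing
4-tuple below `n` all of whose triples get the same colour.
-/

namespace Pool.Agent.Lib.H10

open Filter

/-- Limit of a function to a finite type along an ultrafilter: some value is taken almost
everywhere. -/
theorem exists_ulim {K : Type*} [Finite K] (U : Ultrafilter ℕ) (f : ℕ → K) :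
    ∃ k : K, ∀ᶠ x in (U : Filter ℕ), f x = k := by
  have h : ∀ᶠ x in (U : Filter ℕ), ∃ k : K, f x = k := Eventually.of_forall fun x => ⟨_, rfl⟩
  have h' : ∀ᶠ x in (U : Filter ℕ), ∃ k ∈ (Set.univ : Set K), f x = k := by
    filter_upwards [h] with x hx
    obtain ⟨k, hk⟩ := hx
    exact ⟨k, Set.mem_univ _, hk⟩
  obtain ⟨k, -, hk⟩ := (Ultrafilter.eventually_exists_mem_iff (Set.finite_univ)).1 h'
  exact ⟨k, hk⟩

/-- Finite Ramsey statement for triples and 4-sets, with one colouring for each size `n`. -/
theorem ramsey_four {K : Type*} [Finite K] (col : ℕ → ℕ → ℕ → ℕ → K) :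
    ∃ n a b c d, a < b ∧ b < c ∧ c < d ∧ d < n ∧
      col n a b c = col n a b d ∧ col n a b c = col n a c d ∧ col n a b c = col n b c d := by
  classical
  set U : Ultrafilter ℕ := hyperfilter ℕ with hU
  have hgt : ∀ m : ℕ, ∀ᶠ x in (U : Filter ℕ), m < x := by
    intro m
    have : ∀ᶠ x in atTop, m < x := eventually_gt_atTop m
    exact Nat.hyperfilter_le_atTop this
  choose c3 h3 using fun a b c => exists_ulim U (fun n => col n a b c)
  choose c2 h2 using fun a b => exists_ulim U (fun x => c3 a b x)
  choose c1 h1 using fun a => exists_ulim U (fun x => c2 a x)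
  obtain ⟨c0, h0⟩ := exists_ulim U c1
  obtain ⟨a, ha⟩ := h0.exists
  obtain ⟨b, hb, hab, hab2⟩ := (h0.and ((hgt a).and (h1 a))).exists
  have hab3 : c2 a b = c0 := hab2.trans ha
  obtain ⟨c, hc, hbc, hac2, hbc2, habc⟩ :=
    (h0.and ((hgt b).and ((h1 a).and ((h1 b).and (h2 a b))))).exists
  obtain ⟨d, hcd, habd, hacd, hbcd⟩ :=
    ((hgt c).and ((h2 a b).and ((h2 a c).and (h2 b c)))).exists
  obtain ⟨n, hdn, e1, e2, e3, e4⟩ :=
    ((hgt d).and ((h3 a b c).and ((h3 a b d).and ((h3 a c d).and (h3 b c d))))).exists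
  refine ⟨n, a, b, c, d, hab, hbc, hcd, hdn, ?_, ?_, ?_⟩
  · rw [e1, e2, habc, habd]
  · rw [e1, e3, habc, hacd, hab3, hac2, ha]
  · rw [e1, e4, habc, hbcd, hab3, hbc2, hb]

end Pool.Agent.Lib.H10
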